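import Pool.Agent.ZL8c.A8

/-!
# Zeta-like pairs of weight at most `q²`

`F` is a finite field with `q` elements, `A = F[t]`, `K = F(t) = RatFunc F`, and
`K_∞ = F((1/t))` is Mathlib's `RatFunc.CompletionAtInfty F`.  Every pair `(s₁, s₂)` of positive
integers with `s₁ + s₂ ≤ q²` and `ζ(s₁,s₂)/ζ(s₁+s₂) ∈ K` lies in `𝓛_q`.
-/

open Polynomial WithZero Filter Topology RatFunc

namespace Pool.Agent.Results.MP_8c9ada_nt.WeightQSquared

open Pool.Agent.ZL

variable (F : Type*) [Field F] [Fintype F] [DecidableEq (RatFunc F)]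

/-- The embedding `𝔽_q[t] → 𝔽_q((1/t))`. -/
noncomputable def toInf (a : F[X]) : CompletionAtInfty F :=
  algebraMap (RatFunc F) (CompletionAtInfty F) (algebraMap F[X] (RatFunc F) a)

/-- The Carlitz zeta value `ζ(s) = ∑_{a monic} a^{-s}`. -/
noncomputable def carlitzZeta (s : ℕ) : CompletionAtInfty F :=
  ∑' a : {a : F[X] // a.Monic}, ((toInf F a.1) ^ s)⁻¹

/-- The depth two multizeta value. -/
noncomputable def doubleZeta (s1 s2 : ℕ) : CompletionAtInfty F :=
  ∑' p : {p : F[X] × F[X] // p.1.Monic ∧ p.2.Monic ∧ p.2.natDegree < p.1.natDegree},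
    ((toInf F p.1.1) ^ s1 * (toInf F p.1.2) ^ s2)⁻¹

variable {F}

instance : CompleteSpace (CompletionAtInfty F) :=
  letI : UniformSpace (RatFunc F) := (inftyValued F).toUniformSpace
  inferInstanceAs (CompleteSpace (UniformSpace.Completion (RatFunc F)))

omit [Fintype F] in
lemma v_algebraMap (x : RatFunc F) :
    Valued.v (algebraMap (RatFunc F) (CompletionAtInfty F) x) = vv x := by
  let := inftyValued F
  exact Valued.valuedCompletion_apply x

omit [Fintype F] in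
lemma exists_v_eq (m : ℤ) : ∃ y : CompletionAtInfty F, Valued.v y = exp m :=
  ⟨algebraMap (RatFunc F) (CompletionAtInfty F) (RatFunc.X ^ m), by
    rw [v_algebraMap]; exact inftyValuation.X_zpow F m⟩

omit [Fintype F] in
lemma ball_mem_nhds (m : ℤ) : {x : CompletionAtInfty F | Valued.v x < exp m} ∈ 𝓝 (0 : CompletionAtInfty F) := by
  obtain ⟨y, hy⟩ := exists_v_eq (F := F) m
  rw [Valued.mem_nhds_zero]
  refine ⟨Units.mk0 (Valued.v.restrict y) (by
    rw [Ne, Valuation.restrict_eq_zero_iff, hy]; exact exp_ne_zero), ?_⟩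
  intro x hx
  have hx' : Valued.v.restrict x < Valued.v.restrict y := hx
  rw [Valuation.restrict_lt_iff, hy] at hx'
  exact hx'

omit [Fintype F] in
lemma tendsto_zero_of {ι : Type*} {l : Filter ι} {f : ι → CompletionAtInfty F}
    (h : ∀ m : ℤ, ∀ᶠ i in l, Valued.v (f i) < exp m) : Tendsto f l (𝓝 0) := by
  intro s hs
  rw [Valued.mem_nhds_zero] at hs
  obtain ⟨γ, hγ⟩ := hs
  have hne := MonoidWithZeroHom.ValueGroup₀.embedding_unit_ne_zero γ
  have h1 := h (log (MonoidWithZeroHom.ValueGroup₀.embedding γ.1))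
  rw [exp_log hne] at h1
  refine mem_map.2 (mem_of_superset h1 ?_)
  intro i hi
  apply hγ
  exact (Valuation.restrict_lt_iff_lt_embedding _).2 hi

instance : NonarchimedeanAddGroup (CompletionAtInfty F) where
  is_nonarchimedean := by
    intro U hU
    rw [Valued.mem_nhds_zero] at hU
    obtain ⟨γ, hγ⟩ := hU
    exact ⟨⟨(Valued.v.restrict : Valuation (CompletionAtInfty F) _).ltAddSubgroup γ,
      Valued.isOpen_ball _ _⟩, hγ⟩

omit [Fintype F] in
lemma tendsto_cofinite_of {ι : Type*} (f : ι → CompletionAtInfty F) (g : ι → ℕ)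
    (hfin : ∀ n, {i | g i ≤ n}.Finite) (hv : ∀ i, Valued.v (f i) ≤ exp (-(g i : ℤ))) :
    Tendsto f cofinite (𝓝 0) := by
  apply tendsto_zero_of
  intro m
  rw [eventually_cofinite]
  refine (hfin (-m).toNat).subset ?_
  intro i hi
  change ¬ _ at hi
  change g i ≤ _
  by_contra hc
  apply hi
  refine (hv i).trans_lt ?_
  rw [exp_lt_exp]
  omega

/-- Monic polynomials of degree `< e`. -/
noncomputable def MonLt (F : Type*) [Field F] [Fintype F] (e : ℕ) : Finset F[X] := by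
  classical
  exact (Finset.range e).biUnion (Mon F)

omit [DecidableEq (RatFunc F)] in
lemma mem_MonLt {e : ℕ} {p : F[X]} : p ∈ MonLt F e ↔ p.Monic ∧ p.natDegree < e := by
  unfold MonLt
  simp only [Finset.mem_biUnion, Finset.mem_range, mem_Mon]
  constructor
  · rintro ⟨a, ha, h1, h2⟩
    exact ⟨h1, by omega⟩
  · rintro ⟨h1, h2⟩
    exact ⟨_, h2, h1, rfl⟩

omit [DecidableEq (RatFunc F)] in
lemma sum_MonLt {M : Type*} [AddCommMonoid M] (e : ℕ) (f : F[X] → M) :
    ∑ a ∈ MonLt F e, f a = ∑ i ∈ Finset.range e, ∑ a ∈ Mon F i, f a := by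
  classical
  unfold MonLt
  rw [Finset.sum_biUnion]
  intro i _ j _ hij
  rw [Function.onFun, Finset.disjoint_left]
  intro a ha hb
  exact hij ((mem_Mon.1 ha).2.symm.trans (mem_Mon.1 hb).2)

omit [Fintype F] in
lemma v_toInf {a : F[X]} (ha : a.Monic) : Valued.v (toInf F a) = exp (a.natDegree : ℤ) := by
  rw [toInf, v_algebraMap, vv_poly ha.ne_zero]

omit [DecidableEq (RatFunc F)] in
lemma monLt_finite (n : ℕ) : {a : {a : F[X] // a.Monic} | a.1.natDegree ≤ n}.Finite := by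
  apply Set.Finite.of_finite_image (f := Subtype.val) _ Subtype.val_injective.injOn
  apply (MonLt F (n + 1)).finite_toSet.subset
  rintro _ ⟨a, ha, rfl⟩
  rw [Finset.mem_coe, mem_MonLt]
  exact ⟨a.2, Nat.lt_succ_of_le ha⟩

omit [DecidableEq (RatFunc F)] in
lemma pairs_finite (n : ℕ) :
    {p : {p : F[X] × F[X] // p.1.Monic ∧ p.2.Monic ∧ p.2.natDegree < p.1.natDegree} |
      p.1.1.natDegree ≤ n}.Finite := by
  apply Set.Finite.of_finite_image (f := Subtype.val) _ Subtype.val_injective.injOn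
  apply ((MonLt F (n + 1)) ×ˢ (MonLt F (n + 1))).finite_toSet.subset
  rintro _ ⟨p, hp, rfl⟩
  have hp' : p.1.1.natDegree ≤ n := hp
  rw [Finset.mem_coe, Finset.mem_product, mem_MonLt, mem_MonLt]
  exact ⟨⟨p.2.1, by omega⟩, ⟨p.2.2.1, by have := p.2.2.2; omega⟩⟩

omit [DecidableEq (RatFunc F)] in
lemma monLt_finite' (n : ℕ) : {a : {a : F[X] // a.Monic} | a.1.natDegree < n}.Finite :=
  (monLt_finite n).subset
    (fun a ha => show a.1.natDegree ≤ n from le_of_lt (show a.1.natDegree < n from ha))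

omit [DecidableEq (RatFunc F)] in
lemma pairs_finite' (n : ℕ) :
    {p : {p : F[X] × F[X] // p.1.Monic ∧ p.2.Monic ∧ p.2.natDegree < p.1.natDegree} |
      p.1.1.natDegree < n}.Finite :=
  (pairs_finite n).subset
    (fun a ha => show a.1.1.natDegree ≤ n from le_of_lt (show a.1.1.natDegree < n from ha))

lemma carlitz_tendsto (s : ℕ) (hs : 1 ≤ s) :
    Tendsto (fun a : {a : F[X] // a.Monic} => ((toInf F a.1) ^ s)⁻¹) cofinite (𝓝 0) := by
  apply tendsto_cofinite_of _ (fun a => a.1.natDegree) monLt_finite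
  intro a
  rw [map_inv₀, map_pow, v_toInf a.2, ← exp_nsmul, ← exp_neg, exp_le_exp, nsmul_eq_mul]
  have h1 : (1 : ℤ) ≤ (s : ℤ) := by exact_mod_cast hs
  have h2 : (0 : ℤ) ≤ (a.1.natDegree : ℤ) := Nat.cast_nonneg _
  nlinarith

lemma double_tendsto (s1 s2 : ℕ) (hs : 1 ≤ s1) :
    Tendsto (fun p : {p : F[X] × F[X] // p.1.Monic ∧ p.2.Monic ∧ p.2.natDegree < p.1.natDegree} =>
      ((toInf F p.1.1) ^ s1 * (toInf F p.1.2) ^ s2)⁻¹) cofinite (𝓝 0) := by
  apply tendsto_cofinite_of _ (fun p => p.1.1.natDegree) pairs_finite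
  intro p
  rw [map_inv₀, map_mul, map_pow, map_pow, v_toInf p.2.1, v_toInf p.2.2.1, ← exp_nsmul,
    ← exp_nsmul, ← exp_add, ← exp_neg, exp_le_exp, nsmul_eq_mul, nsmul_eq_mul]
  have h1 : (1 : ℤ) ≤ (s1 : ℤ) := by exact_mod_cast hs
  have h2 : (0 : ℤ) ≤ (p.1.1.natDegree : ℤ) := Nat.cast_nonneg _
  have h3 : (0 : ℤ) ≤ (s2 : ℤ) * (p.1.2.natDegree : ℤ) :=
    mul_nonneg (Nat.cast_nonneg _) (Nat.cast_nonneg _)
  nlinarith

lemma carlitz_summable (s : ℕ) (hs : 1 ≤ s) :
    Summable (fun a : {a : F[X] // a.Monic} => ((toInf F a.1) ^ s)⁻¹) :=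
  NonarchimedeanAddGroup.summable_of_tendsto_cofinite_zero (carlitz_tendsto s hs)

lemma double_summable (s1 s2 : ℕ) (hs : 1 ≤ s1) :
    Summable (fun p : {p : F[X] × F[X] // p.1.Monic ∧ p.2.Monic ∧
      p.2.natDegree < p.1.natDegree} => ((toInf F p.1.1) ^ s1 * (toInf F p.1.2) ^ s2)⁻¹) :=
  NonarchimedeanAddGroup.summable_of_tendsto_cofinite_zero (double_tendsto s1 s2 hs)

lemma carlitz_lim (s : ℕ) (hs : 1 ≤ s) :
    Tendsto (fun d => algebraMap (RatFunc F) (CompletionAtInfty F) (Slt F d s)) atTop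
      (𝓝 (carlitzZeta F s)) := by
  classical
  have h1 := (carlitz_summable (F := F) s hs).hasSum
  have h2 : Tendsto (fun d : ℕ => (monLt_finite' (F := F) d).toFinset) atTop atTop := by
    apply tendsto_atTop_finset_of_monotone
    · intro d1 d2 hd a ha
      simp only [Set.Finite.mem_toFinset, Set.mem_ofPred_eq] at ha ⊢
      omega
    · intro a
      refine ⟨a.1.natDegree + 1, ?_⟩
      simp
  refine (h1.comp h2).congr ?_
  intro d
  simp only [Function.comp]
  refine (Finset.sum_map _ (Function.Embedding.subtype _)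
    (fun a : F[X] => ((toInf F a) ^ s)⁻¹)).symm.trans ?_
  have h3 : Finset.map (Function.Embedding.subtype _) ((monLt_finite' (F := F) d).toFinset) = MonLt F d := by
    ext a
    simp only [Finset.mem_map, Set.Finite.mem_toFinset, Set.mem_ofPred_eq, mem_MonLt]
    constructor
    · rintro ⟨b, hb, rfl⟩
      exact ⟨b.2, hb⟩
    · rintro ⟨h, h'⟩
      exact ⟨⟨a, h⟩, h', rfl⟩
  rw [h3, sum_MonLt, Slt, map_sum]
  apply Finset.sum_congr rfl
  intro e _
  rw [SS, map_sum]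
  apply Finset.sum_congr rfl
  intro a _
  rw [toInf, ← map_pow, ← map_inv₀, inv_pow]

lemma double_lim (s1 s2 : ℕ) (hs : 1 ≤ s1) :
    Tendsto (fun d => algebraMap (RatFunc F) (CompletionAtInfty F)
      (∑ e ∈ Finset.range d, (SS F e s1 * Slt F e s2))) atTop (𝓝 (doubleZeta F s1 s2)) := by
  classical
  have h1 := (double_summable (F := F) s1 s2 hs).hasSum
  have h2 : Tendsto (fun d : ℕ => (pairs_finite' (F := F) d).toFinset) atTop atTop := by
    apply tendsto_atTop_finset_of_monotone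
    · intro d1 d2 hd a ha
      simp only [Set.Finite.mem_toFinset, Set.mem_ofPred_eq] at ha ⊢
      omega
    · intro a
      refine ⟨a.1.1.natDegree + 1, ?_⟩
      simp
  refine (h1.comp h2).congr ?_
  intro d
  simp only [Function.comp]
  refine (Finset.sum_map _ (Function.Embedding.subtype _)
    (fun p : F[X] × F[X] => ((toInf F p.1) ^ s1 * (toInf F p.2) ^ s2)⁻¹)).symm.trans ?_
  have h3 : Finset.map (Function.Embedding.subtype _) ((pairs_finite' (F := F) d).toFinset) =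
      (Finset.range d).biUnion (fun e => Mon F e ×ˢ MonLt F e) := by
    ext p
    simp only [Finset.mem_map, Set.Finite.mem_toFinset, Set.mem_ofPred_eq, mem_MonLt,
      Finset.mem_biUnion, Finset.mem_range, Finset.mem_product, mem_Mon]
    constructor
    · rintro ⟨b, hb, rfl⟩
      exact ⟨b.1.1.natDegree, hb, ⟨b.2.1, rfl⟩, b.2.2.1, b.2.2.2⟩
    · rintro ⟨e, he, ⟨h4, h5⟩, h6, h7⟩
      exact ⟨⟨p, h4, h6, by omega⟩, by simp; omega, rfl⟩
  rw [h3, Finset.sum_biUnion, map_sum]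
  · apply Finset.sum_congr rfl
    intro e _
    rw [Finset.sum_product, map_mul, SS, Slt, map_sum]
    have h8 : ∑ i ∈ Finset.range e, SS F i s2 =
        ∑ a ∈ MonLt F e, ((algebraMap F[X] (RatFunc F) a)⁻¹) ^ s2 := by
      rw [sum_MonLt]; rfl
    rw [h8, map_sum, Finset.sum_mul_sum]
    apply Finset.sum_congr rfl
    intro a _
    apply Finset.sum_congr rfl
    intro b _
    simp only [toInf, map_pow, map_inv₀, mul_inv, inv_pow]
  · intro i _ j _ hij
    rw [Function.onFun, Finset.disjoint_left]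
    intro p hp hp'
    rw [Finset.mem_product] at hp hp'
    exact hij ((mem_Mon.1 hp.1).2.symm.trans (mem_Mon.1 hp'.1).2)

lemma carlitzZeta_ne_zero (s : ℕ) (hs : 1 ≤ s) (hs' : s ≤ Fintype.card F ^ 2) :
    carlitzZeta F s ≠ 0 := by
  intro h0
  have h1 := carlitz_lim (F := F) s hs
  rw [h0] at h1
  have h2 := h1.eventually (ball_mem_nhds (F := F) 0)
  obtain ⟨D, hD⟩ := eventually_atTop.1 h2
  have h3 := hD (D + 1) (by omega)
  change Valued.v _ < _ at h3
  rw [v_algebraMap, vv_Slt D s hs hs', exp_zero] at h3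
  exact lt_irrefl _ h3

variable (F) in
/-- The pair `(s₁, s₂)` is zeta-like if `ζ(s₁,s₂)/ζ(s₁+s₂)` lies in `K = 𝔽_q(t)`. -/
def ZetaLike (s1 s2 : ℕ) : Prop :=
  ∃ c : RatFunc F, doubleZeta F s1 s2 / carlitzZeta F (s1 + s2) =
    algebraMap (RatFunc F) (CompletionAtInfty F) c

theorem main (s1 s2 : ℕ) (h1 : 1 ≤ s1) (h2 : 1 ≤ s2) (hw : s1 + s2 ≤ Fintype.card F ^ 2)
    (hz : ZetaLike F s1 s2) :
    ∃ j, s2 = j * (Fintype.card F - 1) ∧ s1 ≤ Fintype.card F ∧ s1 ≤ j := by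
  obtain ⟨c, hc⟩ := hz
  rw [div_eq_iff (carlitzZeta_ne_zero _ (by omega) hw)] at hc
  apply core s1 s2 h1 h2 hw c
  intro m
  have l1 := double_lim (F := F) s1 s2 h1
  have l2 := (carlitz_lim (F := F) (s1 + s2) (by omega)).const_mul
    (algebraMap (RatFunc F) (CompletionAtInfty F) c)
  have l3 := l1.sub l2
  rw [← hc, sub_self] at l3
  have l4 : Tendsto (fun d => algebraMap (RatFunc F) (CompletionAtInfty F) (TT s1 s2 c d)) atTop
      (𝓝 0) := by
    refine l3.congr ?_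
    intro d
    rw [TT, map_sub, map_mul]
  have h4 := l4.eventually (ball_mem_nhds (F := F) m)
  obtain ⟨D, hD⟩ := eventually_atTop.1 h4
  refine ⟨D, fun d hd => ?_⟩
  have h5 := hD d hd
  change Valued.v _ < _ at h5
  rwa [v_algebraMap] at h5

/-- The set `𝓛_q` of pairs `(i, j(q-1))` with `1 ≤ i ≤ q` and `i ≤ j ≤ ⌊(q²-i)/(q-1)⌋`. -/
def Lq (q : ℕ) : Set (ℕ × ℕ) :=
  {p | ∃ i j : ℕ, p = (i, j * (q - 1)) ∧ 1 ≤ i ∧ i ≤ q ∧ i ≤ j ∧ j ≤ (q ^ 2 - i) / (q - 1)}

end Pool.Agent.Results.MP_8c9ada_nt.WeightQSquared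

open Pool.Agent.Results.MP_8c9ada_nt.WeightQSquared in
/-- Every zeta-like pair of weight at most `q²` lies in `𝓛_q`. -/
theorem Pool.Agent.Results.MP_8c9ada_nt.WeightQSquared.result
    (F : Type*) [Field F] [Fintype F] [DecidableEq (RatFunc F)] (s1 s2 : ℕ)
    (h1 : 1 ≤ s1) (h2 : 1 ≤ s2) (hw : s1 + s2 ≤ Fintype.card F ^ 2)
    (hz : ZetaLike F s1 s2) : (s1, s2) ∈ Lq (Fintype.card F) := by
  obtain ⟨j, hj, hq, hij⟩ := Pool.Agent.Results.MP_8c9ada_nt.WeightQSquared.main s1 s2 h1 h2 hw hz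
  refine ⟨s1, j, by rw [hj], h1, hq, hij, ?_⟩
  have h2q : 2 ≤ Fintype.card F := Fintype.one_lt_card
  rw [Nat.le_div_iff_mul_le (by omega)]
  omega
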